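import Pool.Agent.W434.BW.Defs

/-! Project BW: basic lemmas on terms, subuniverses, homomorphisms (all proved). -/

set_option autoImplicit false

namespace Pool.Agent.W434.BW

variable {Ω : Type} {ar : Ω → ℕ}

theorem ev_rel {X Y V : Type} {a : Alg ar X} {b : Alg ar Y} {R : X → Y → Prop} (h : Rel a b R)
    (t : Tm ar V) (x : V → X) (y : V → Y) (hxy : ∀ v, R (x v) (y v)) :
    R (t.ev a x) (t.ev b y) := by
  induction t with
  | var v => exact hxy v
  | app ω t ih => exact h ω _ _ (fun i => ih i)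

theorem ev_mem {X V : Type} {a : Alg ar X} {S : Set X} (h : Sub a S)
    (t : Tm ar V) (x : V → X) (hx : ∀ v, x v ∈ S) : t.ev a x ∈ S := by
  induction t with
  | var v => exact hx v
  | app ω t ih => exact h ω _ (fun i => ih i)

theorem ev_idem {X V : Type} {a : Alg ar X} (h : Idem a) (t : Tm ar V) (x : X) :
    t.ev a (fun _ => x) = x := by
  induction t with
  | var v => rfl
  | app ω t ih =>
    show a ω (fun i => (t i).ev a (fun _ => x)) = x
    simp only [ih]
    exact h ω x

theorem ev_hom {X Y V : Type} {a : Alg ar X} {b : Alg ar Y} {f : X → Y} (h : Hom a b f)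
    (t : Tm ar V) (x : V → X) : f (t.ev a x) = t.ev b (fun v => f (x v)) := by
  induction t with
  | var v => rfl
  | app ω t ih =>
    show f (a ω _) = b ω _
    rw [h]
    congr 1
    funext i
    exact ih i

theorem ev_pi {X V ι : Type} (a : Alg ar X) (t : Tm ar V) (x : V → ι → X) (j : ι) :
    t.ev (piA a ι) x j = t.ev a (fun v => x v j) := by
  induction t with
  | var v => rfl
  | app ω t ih =>
    show a ω _ = a ω _
    congr 1
    funext i
    exact ih i

theorem ev_prod {X Y V : Type} (a : Alg ar X) (b : Alg ar Y) (t : Tm ar V) (x : V → X × Y) :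
    t.ev (prodA a b) x = (t.ev a (fun v => (x v).1), t.ev b (fun v => (x v).2)) := by
  induction t with
  | var v => rfl
  | app ω t ih =>
    show (a ω _, b ω _) = (a ω _, b ω _)
    simp only [ih]

theorem ev_sub {X V : Type} (a : Alg ar X) (S : Set X) (h : Sub a S) (t : Tm ar V) (x : V → S) :
    ((t.ev (subA a S h) x : S) : X) = t.ev a (fun v => (x v : X)) := by
  induction t with
  | var v => rfl
  | app ω t ih =>
    show a ω _ = a ω _
    congr 1
    funext i
    exact ih i

/-- substitution -/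
def Tm.bind {V W : Type} (f : V → Tm ar W) : Tm ar V → Tm ar W
  | .var v => f v
  | .app ω t => .app ω (fun i => (t i).bind f)

theorem ev_bind {X V W : Type} (a : Alg ar X) (f : V → Tm ar W) (t : Tm ar V) (x : W → X) :
    (t.bind f).ev a x = t.ev a (fun v => (f v).ev a x) := by
  induction t with
  | var v => rfl
  | app ω t ih =>
    show a ω _ = a ω _
    congr 1
    funext i
    exact ih i

theorem subset_Sg {X : Type} (a : Alg ar X) (G : Set X) : G ⊆ Sg a G := by
  intro x hx
  exact ⟨.var ⟨x, hx⟩, rfl⟩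

theorem sub_Sg {X : Type} (a : Alg ar X) (G : Set X) : Sub a (Sg a G) := by
  intro ω x hx
  choose t ht using hx
  refine ⟨.app ω t, ?_⟩
  show a ω _ = a ω x
  congr 1
  funext i
  exact ht i

theorem Sg_le {X : Type} {a : Alg ar X} {G S : Set X} (h : Sub a S) (hG : G ⊆ S) : Sg a G ⊆ S := by
  rintro x ⟨t, rfl⟩
  exact ev_mem h t _ (fun g => hG g.2)

theorem sub_univ {X : Type} (a : Alg ar X) : Sub a Set.univ := fun _ _ _ => trivial

theorem sub_inter {X : Type} {a : Alg ar X} {S T : Set X} (hS : Sub a S) (hT : Sub a T) :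
    Sub a (S ∩ T) := fun ω x hx => ⟨hS ω x (fun i => (hx i).1), hT ω x (fun i => (hx i).2)⟩

theorem idem_pi {X : Type} {a : Alg ar X} (ι : Type) (h : Idem a) : Idem (piA a ι) := by
  intro ω x
  funext j
  exact h ω (x j)

theorem idem_prod {X Y : Type} {a : Alg ar X} {b : Alg ar Y} (h : Idem a) (h' : Idem b) :
    Idem (prodA a b) := by
  intro ω x
  exact Prod.ext (h ω x.1) (h' ω x.2)

theorem idem_sub {X : Type} {a : Alg ar X} (S : Set X) (hS : Sub a S) (h : Idem a) :
    Idem (subA a S hS) := by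
  intro ω x
  exact Subtype.ext (h ω x.1)

theorem idem_img {X Y : Type} {a : Alg ar X} {b : Alg ar Y} {f : X → Y} (hf : Hom a b f)
    (hs : Function.Surjective f) (h : Idem a) : Idem b := by
  intro ω y
  obtain ⟨x, rfl⟩ := hs y
  have := hf ω (fun _ => x)
  rw [h ω x] at this
  exact this.symm

theorem vec3 {X Y : Type} (f : X → Y) (x y z : X) : (fun v => f (![x, y, z] v)) = ![f x, f y, f z] := by
  funext v
  fin_cases v <;> rfl

theorem vec2 {X Y : Type} (f : X → Y) (x y : X) : (fun v => f (![x, y] v)) = ![f x, f y] := by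
  funext v
  fin_cases v <;> rfl

theorem vec4 {X Y : Type} (f : X → Y) (x y z w : X) :
    (fun v => f (![x, y, z, w] v)) = ![f x, f y, f z, f w] := by
  funext v
  fin_cases v <;> rfl

theorem nice_pi {X : Type} {u : Tm ar (Fin 3)} {a : Alg ar X} (ι : Type) (h : Nice u a) :
    Nice u (piA a ι) := by
  refine ⟨idem_pi ι h.1, fun x y => ?_⟩
  have key : ∀ (p q r : ι → X) (j : ι), u.ev (piA a ι) ![p, q, r] j = u.ev a ![p j, q j, r j] := by
    intro p q r j
    rw [ev_pi]
    congr 1
    exact vec3 (fun s : ι → X => s j) p q r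
  constructor
  · funext j
    rw [key, key]
    exact (h.2 (x j) (y j)).1
  · funext j
    rw [key, key]
    exact (h.2 (x j) (y j)).2

theorem nice_prod {X Y : Type} {u : Tm ar (Fin 3)} {a : Alg ar X} {b : Alg ar Y}
    (h : Nice u a) (h' : Nice u b) : Nice u (prodA a b) := by
  refine ⟨idem_prod h.1 h'.1, fun x y => ?_⟩
  have key : ∀ (p q r : X × Y), u.ev (prodA a b) ![p, q, r] =
      (u.ev a ![p.1, q.1, r.1], u.ev b ![p.2, q.2, r.2]) := by
    intro p q r
    rw [ev_prod, vec3 (fun s : X × Y => s.1), vec3 (fun s : X × Y => s.2)]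
  constructor
  · rw [key, key]
    exact Prod.ext (h.2 x.1 y.1).1 (h'.2 x.2 y.2).1
  · rw [key, key]
    exact Prod.ext (h.2 x.1 y.1).2 (h'.2 x.2 y.2).2

theorem nice_sub {X : Type} {u : Tm ar (Fin 3)} {a : Alg ar X} (S : Set X) (hS : Sub a S)
    (h : Nice u a) : Nice u (subA a S hS) := by
  refine ⟨idem_sub S hS h.1, fun x y => ?_⟩
  have key : ∀ (p q r : S), ((u.ev (subA a S hS) ![p, q, r] : S) : X) = u.ev a ![(p : X), q, r] := by
    intro p q r
    rw [ev_sub, vec3 (fun s : S => (s : X))]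
  constructor
  · apply Subtype.ext
    rw [key, key]
    exact (h.2 x y).1
  · apply Subtype.ext
    rw [key, key]
    exact (h.2 x y).2

theorem nice_img {X Y : Type} {u : Tm ar (Fin 3)} {a : Alg ar X} {b : Alg ar Y} {f : X → Y}
    (hf : Hom a b f) (hs : Function.Surjective f) (h : Nice u a) : Nice u b := by
  refine ⟨idem_img hf hs h.1, fun x y => ?_⟩
  obtain ⟨x, rfl⟩ := hs x
  obtain ⟨y, rfl⟩ := hs y
  have key : ∀ (p q r : X), u.ev b ![f p, f q, f r] = f (u.ev a ![p, q, r]) := by
    intro p q r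
    rw [ev_hom hf, vec3]
  constructor
  · rw [key, key, (h.2 x y).1]
  · rw [key, key, (h.2 x y).2]

section Sys

variable {V St A : Type} (S : Sys V St A)

theorem Sys.isPath_append (l m : List St) (x z : V) :
    S.IsPath (l ++ m) x z ↔ ∃ y, S.IsPath l x y ∧ S.IsPath m y z := by
  induction l generalizing x with
  | nil => simp [Sys.IsPath]
  | cons s l ih =>
    constructor
    · rintro ⟨h1, h2⟩
      obtain ⟨y, h3, h4⟩ := (ih (S.tgt s)).1 h2
      exact ⟨y, ⟨h1, h3⟩, h4⟩
    · rintro ⟨y, ⟨h1, h3⟩, h4⟩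
      exact ⟨h1, (ih (S.tgt s)).2 ⟨y, h3, h4⟩⟩

theorem Sys.rl_append (l m : List St) (a b : A) :
    S.Rl (l ++ m) a b ↔ ∃ c, S.Rl l a c ∧ S.Rl m c b := by
  induction l generalizing a with
  | nil => simp [Sys.Rl]
  | cons s l ih =>
    constructor
    · rintro ⟨c, h1, h2⟩
      obtain ⟨d, h3, h4⟩ := (ih c).1 h2
      exact ⟨d, ⟨c, h1, h3⟩, h4⟩
    · rintro ⟨d, ⟨c, h1, h3⟩, h4⟩
      exact ⟨c, h1, (ih c).2 ⟨d, h3, h4⟩⟩

theorem rep_zero {St : Type} (l : List St) : rep 0 l = [] := rfl

theorem rep_succ {St : Type} (j : ℕ) (l : List St) : rep (j + 1) l = l ++ rep j l := by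
  simp [rep, List.replicate_succ]

theorem rep_add {St : Type} (i j : ℕ) (l : List St) : rep (i + j) l = rep i l ++ rep j l := by
  induction i with
  | zero => simp [rep]
  | succ i ih => rw [show i + 1 + j = (i + j) + 1 by ring, rep_succ, rep_succ, ih, List.append_assoc]

theorem rep_succ' {St : Type} (j : ℕ) (l : List St) : rep (j + 1) l = rep j l ++ l := by
  rw [rep_add]
  congr 1
  simp [rep]

/-- `π (ρ π)^j = (π ρ)^j π` -/
theorem rep_shift {St : Type} (π ρ : List St) (j : ℕ) :
    π ++ rep j (ρ ++ π) = rep j (π ++ ρ) ++ π := by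
  induction j with
  | zero => simp [rep]
  | succ j ih =>
    rw [rep_succ', ← List.append_assoc, ih, rep_succ' j (π ++ ρ)]
    simp [List.append_assoc]

theorem Sys.isPath_rep (c : List St) (x : V) (h : S.IsPath c x x) (n : ℕ) : S.IsPath (rep n c) x x := by
  induction n with
  | zero => simp [rep, Sys.IsPath]
  | succ n ih =>
    rw [rep_succ, Sys.isPath_append]
    exact ⟨x, h, ih⟩

/-- the reversed path -/
def Sys.rv : List St → List St := fun l => (l.map S.rev).reverse

theorem Sys.rl_rv (hS : S.Ok) (l : List St) (a b : A) : S.Rl (S.rv l) b a ↔ S.Rl l a b := by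
  induction l generalizing a with
  | nil =>
    simp [Sys.rv, Sys.Rl, eq_comm]
  | cons s l ih =>
    have e : S.rv (s :: l) = S.rv l ++ [S.rev s] := by simp [Sys.rv]
    rw [e, Sys.rl_append]
    constructor
    · rintro ⟨c, h1, d, h2, h3⟩
      have h3' : d = a := h3
      subst h3'
      exact ⟨c, (hS.rev_E s d c).1 h2, (ih c).1 h1⟩
    · rintro ⟨c, h1, h2⟩
      exact ⟨c, (ih c).2 h2, a, (hS.rev_E s a c).2 h1, rfl⟩

theorem Sys.isPath_rv (hS : S.Ok) (l : List St) (x y : V) (h : S.IsPath l x y) :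
    S.IsPath (S.rv l) y x := by
  induction l generalizing x with
  | nil => exact Eq.symm h
  | cons s l ih =>
    have e : S.rv (s :: l) = S.rv l ++ [S.rev s] := by simp [Sys.rv]
    rw [e, Sys.isPath_append]
    exact ⟨S.tgt s, ih _ h.2, hS.src_rev s, (hS.tgt_rev s).trans h.1⟩

theorem Sys.rl_dom (hS : S.Ok) (l : List St) (x y : V) (h : S.IsPath l x y) (a b : A)
    (ha : a ∈ S.P x) (hab : S.Rl l a b) : b ∈ S.P y := by
  induction l generalizing x a with
  | nil =>
    have h1 : x = y := h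
    have h2 : a = b := hab
    subst h1
    subst h2
    exact ha
  | cons s l ih =>
    obtain ⟨c, h1, h2⟩ := hab
    exact ih (S.tgt s) h.2 c (hS.dom s a c h1).2 h2

theorem Sys.rl_ext (hS : S.Ok) (l : List St) (x y : V) (h : S.IsPath l x y) (a : A)
    (ha : a ∈ S.P x) : ∃ b ∈ S.P y, S.Rl l a b := by
  induction l generalizing x a with
  | nil =>
    have h1 : x = y := h
    subst h1
    exact ⟨a, ha, rfl⟩
  | cons s l ih =>
    have h1 : S.src s = x := h.1
    subst h1
    obtain ⟨c, hc⟩ := hS.ext s a ha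
    obtain ⟨b, hb, hb'⟩ := ih (S.tgt s) h.2 c (hS.dom s a c hc).2
    exact ⟨b, hb, c, hc, hb'⟩

end Sys

end Pool.Agent.W434.BW
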