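import Pool.Agent.W434.BW.StmB

/-! Project BW, part C: clones, copies of blocks, minimal clones. Definitions and exact statements. -/

set_option autoImplicit false

namespace Pool.Agent.W434.BW

/-- sets of finitary operations on `A` -/
abbrev Ops (A : Type) := ∀ k : ℕ, Set ((Fin k → A) → A)

def IsCl {A : Type} (E : Ops A) : Prop :=
  (∀ (k : ℕ) (i : Fin k), (fun x : Fin k → A => x i) ∈ E k) ∧
  (∀ (k m : ℕ) (f : (Fin k → A) → A) (g : Fin k → (Fin m → A) → A),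
    f ∈ E k → (∀ i, g i ∈ E m) → (fun x : Fin m → A => f (fun i => g i x)) ∈ E m)

/-- linked idempotent ternary and 4-ary weak near-unanimity operations -/
def LinkedWnu {A : Type} (v : (Fin 3 → A) → A) (w : (Fin 4 → A) → A) : Prop :=
  (∀ a : A, v ![a, a, a] = a) ∧
  (∀ a : A, w ![a, a, a, a] = a) ∧
  (∀ x y : A, v ![y, x, x] = v ![x, y, x] ∧ v ![x, y, x] = v ![x, x, y]) ∧
  (∀ x y : A, w ![y, x, x, x] = w ![x, y, x, x] ∧
      w ![x, y, x, x] = w ![x, x, y, x] ∧ w ![x, x, y, x] = w ![x, x, x, y]) ∧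
  (∀ x y : A, v ![y, x, x] = w ![y, x, x, x])

def IsBW {A : Type} (E : Ops A) : Prop := ∃ v ∈ E 3, ∃ w ∈ E 4, LinkedWnu v w

/-- preserved binary relation -/
def Inv2 {A : Type} (E : Ops A) (R : Set (A × A)) : Prop :=
  ∀ (k : ℕ) (f : (Fin k → A) → A), f ∈ E k →
    ∀ x y : Fin k → A, (∀ i, (x i, y i) ∈ R) → (f x, f y) ∈ R

def MinBW {A : Type} (E : Ops A) : Prop :=
  IsCl E ∧ IsBW E ∧ ∀ F : Ops A, IsCl F → IsBW F → (∀ k, F k ⊆ E k) → F = E

/-- idempotent set of operations -/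
def IdCl {A : Type} (E : Ops A) : Prop := ∀ k, ∀ f ∈ E k, ∀ a : A, f (fun _ => a) = a

/-- subset closed under the operations -/
def ClSub {A : Type} (E : Ops A) (P : Set A) : Prop :=
  ∀ k, ∀ f ∈ E k, ∀ x : Fin k → A, (∀ i, x i ∈ P) → f x ∈ P

/-- the symbols of the algebra of a set of operations -/
abbrev OpSym {A : Type} (E : Ops A) : Type := Σ k : ℕ, {f : (Fin k → A) → A // f ∈ E k}

abbrev opAr {A : Type} (E : Ops A) : OpSym E → ℕ := fun ω => ω.1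

/-- the algebra of a set of operations -/
def clA {A : Type} (E : Ops A) : Alg (opAr E) A := fun ω x => ω.2.1 x

/-- the term of a ternary operation -/
def tm3 {A : Type} (E : Ops A) (u : (Fin 3 → A) → A) (hu : u ∈ E 3) : Tm (opAr E) (Fin 3) :=
  .app (⟨3, ⟨u, hu⟩⟩ : OpSym E) (fun i => .var i)

/-- `t` absorbs `P` into `C` as soon as two arguments are in `C` -/
def Maj3 {A : Type} (t : (Fin 3 → A) → A) (C P : Set A) : Prop :=
  ∀ c ∈ C, ∀ d ∈ C, ∀ x ∈ P, t ![c, d, x] ∈ C ∧ t ![c, x, d] ∈ C ∧ t ![x, c, d] ∈ C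

/-- the clause relation `x ∈ C or y ∈ C` on `P` -/
def RC {A : Type} (C P : Set A) : Set (A × A) :=
  {p | p.1 ∈ P ∧ p.2 ∈ P ∧ (p.1 ∈ C ∨ p.2 ∈ C)}

/-- the operations of `E` preserving the clause relation -/
def GC {A : Type} (E : Ops A) (C P : Set A) : Ops A := fun k =>
  {f | f ∈ E k ∧ ∀ x y : Fin k → A, (∀ i, (x i, y i) ∈ RC C P) → (f x, f y) ∈ RC C P}

/-- minors: `t` at position `p`, `s` elsewhere -/
def minor {A : Type} {n : ℕ} (g : (Fin n → A) → A) (p : Fin n) (s t : A) : A :=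
  g (fun i => if i = p then t else s)

/-- BW-CLO: dictionary between clones and their algebras. -/
def S_clo : Prop :=
  (∀ (A : Type) (E : Ops A), IsCl E → ∀ (k : ℕ) (t : Tm (opAr E) (Fin k)),
    (fun x : Fin k → A => t.ev (clA E) x) ∈ E k) ∧
  (∀ (A : Type) (E : Ops A) (P : Set A), Sub (clA E) P ↔ ClSub E P) ∧
  (∀ (A : Type) (E : Ops A) (R : A → A → Prop),
    Rel (clA E) (clA E) R ↔ Inv2 E {p : A × A | R p.1 p.2}) ∧
  (∀ (A : Type) (E : Ops A), IdCl E → ∀ (u : (Fin 3 → A) → A) (hu : u ∈ E 3),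
    (∀ x y : A, u ![y, x, x] = u ![x, y, x] ∧ u ![x, y, x] = u ![x, x, y]) →
    Nice (tm3 E u hu) (clA E)) ∧
  (∀ (A : Type) (E : Ops A), IsCl E → ∀ C P : Set A,
    (∃ t, RAbs (clA E) t C P) ↔ (∃ t ∈ E 3, Maj3 t C P)) ∧
  (∀ (A : Type) (E : Ops A), MinBW E → IdCl E) ∧
  (∀ (A : Type) (E : Ops A) (C P : Set A), IsCl E → IsCl (GC E C P)) ∧
  (∀ (A : Type) (E F : Ops A), IsCl E → IsCl F → (∀ R, Inv2 E R ↔ Inv2 F R) →
    ∀ (k : ℕ) (x y : Fin k → A) (c d : A),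
      (∃ g ∈ E k, g x = c ∧ g y = d) ↔ (∃ g ∈ F k, g x = c ∧ g y = d))

/-- BW-NLB: linked weak near-unanimity terms exclude Latin squares. -/
def S_nlb : Prop :=
  (∀ (Ω : Type) (ar : Ω → ℕ) (Q : Type) (q : Alg ar Q) (v : Tm ar (Fin 3)) (w : Tm ar (Fin 4)),
    Idem q → LinkedWnu (v.ev q) (w.ev q) → NoLatin q) ∧
  (∀ (A : Type) (E : Ops A), IdCl E → IsBW E → NLQ (clA E))

section NC

variable {Ω1 Ω2 : Type} {ar1 : Ω1 → ℕ} {ar2 : Ω2 → ℕ}

/-- data of copies of blocks -/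
structure Blk (A : Type) where
  N : ℕ
  B : Type
  n : B → ℕ
  idx : ∀ b, Fin (n b) → Fin N
  F : ∀ b, Set ((Fin (n b) → A) → A)
  F' : ∀ b, Set ((Fin (n b) → A) → A)
  Cp : (A → A → A) → (A → A → A) → Prop

structure Blk.Ok {A : Type} (D : Blk A) (a1 : Alg ar1 A) (a2 : Alg ar2 A) : Prop where
  two : ∀ b, 2 ≤ D.n b
  inj : ∀ b, Function.Injective (D.idx b)
  sub1 : ∀ b, Sub (piA a1 (Fin (D.n b) → A)) (D.F b)
  sub2 : ∀ b, Sub (piA a2 (Fin (D.n b) → A)) (D.F' b)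
  pair : ∀ b x y c d, (∃ g ∈ D.F b, g x = c ∧ g y = d) ↔ (∃ g ∈ D.F' b, g x = c ∧ g y = d)
  symm : ∀ c d, D.Cp c d → D.Cp d c
  ne : ∃ c d, D.Cp c d
  tri : ∀ c d, D.Cp c d → ∃ e, D.Cp c e ∧ D.Cp d e
  k1 : ∀ b p q, p ≠ q → ∀ c d, D.Cp c d → ∃ g ∈ D.F b, minor g p = c ∧ minor g q = d
  k2 : ∀ b, ∀ g ∈ D.F b, ∀ p q, p ≠ q → D.Cp (minor g p) (minor g q)

/-- the constraint symbols: `inl (b, true)` for `F b`, `inl (b, false)` for `F' b`,
`inr ⟨b, p, s, t⟩` for the link of an index variable with a block variable -/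
abbrev Blk.K {A : Type} (D : Blk A) : Type := (D.B × Bool) ⊕ (Σ b : D.B, Fin (D.n b) × A × A)

/-- variables: index variables and block variables -/
abbrev Blk.V {A : Type} (D : Blk A) : Type := (Fin D.N × A × A) ⊕ (Σ b : D.B, (Fin (D.n b) → A))

def Blk.ι {A : Type} (D : Blk A) : D.K → Type
  | .inl p => Fin (D.n p.1) → A
  | .inr _ => Bool

/-- the mixed instance of the blocks -/
def Blk.inst {A : Type} (D : Blk A) : MI D.V D.K A D.ι where
  σ := fun k => match k with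
    | .inl p => fun u => .inr ⟨p.1, u⟩
    | .inr z => fun c => match c with
      | false => .inl (D.idx z.1 z.2.1, z.2.2.1, z.2.2.2)
      | true => .inr ⟨z.1, fun i => if i = z.2.1 then z.2.2.2 else z.2.2.1⟩
  fl := fun k => match k with
    | .inl p => p.2 = true
    | .inr _ => True
  R := fun k => match k with
    | .inl (b, true) => D.F b
    | .inl (b, false) => D.F' b
    | .inr z => {r : Bool → A | r false = r true ∧ ∃ c d, D.Cp c d ∧ r false = c z.2.2.1 z.2.2.2}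
  P := fun x => match x with
    | .inl y => {a | ∃ c d, D.Cp c d ∧ a = c y.2.1 y.2.2}
    | .inr z => {a | ∃ g ∈ D.F z.1, a = g z.2}

/-- BW-SP: every path relation of the block instance contains the relation of every parallel step. -/
def S_sp : Prop :=
  ∀ (Ω1 Ω2 : Type) (ar1 : Ω1 → ℕ) (ar2 : Ω2 → ℕ) (A : Type) (a1 : Alg ar1 A) (a2 : Alg ar2 A)
    (D : Blk A), D.Ok a1 a2 →
    ∀ s π, D.inst.sys.IsPath π (D.inst.sys.src s) (D.inst.sys.tgt s) →
      ∀ a b, D.inst.sys.E s a b → D.inst.sys.Rl π a b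

/-- BW-NC: solutions of the block instance. -/
def S_nc : Prop :=
  ∀ (Ω1 Ω2 : Type) (ar1 : Ω1 → ℕ) (ar2 : Ω2 → ℕ) (A : Type) [Finite A]
    (u1 : Tm ar1 (Fin 3)) (u2 : Tm ar2 (Fin 3)) (a1 : Alg ar1 A) (a2 : Alg ar2 A)
    (D : Blk A) [Finite D.B] [Nonempty D.B], Two u1 u2 a1 a2 → D.Ok a1 a2 →
    ∃ (y : Fin D.N → A → A → A) (g : ∀ b, (Fin (D.n b) → A) → A),
      (∀ b, g b ∈ D.F b ∧ g b ∈ D.F' b) ∧ ∀ b p, minor (g b) p = y (D.idx b p)

end NC

/-- BW-N34: common linked weak near-unanimity operations. -/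
def S_n34 : Prop :=
  ∀ (A : Type) [Finite A] (E1 E2 : Ops A) (u1 : Tm (opAr E1) (Fin 3)) (u2 : Tm (opAr E2) (Fin 3)),
    IsCl E1 → IsCl E2 → IdCl E1 → IdCl E2 → (∀ R, Inv2 E1 R ↔ Inv2 E2 R) →
    Two u1 u2 (clA E1) (clA E2) →
    ∃ v, v ∈ E1 3 ∧ v ∈ E2 3 ∧ ∃ w, w ∈ E1 4 ∧ w ∈ E2 4 ∧ LinkedWnu v w

/-- BW-N3: a weak near-unanimity operation that absorbs like a majority. -/
def S_n3 : Prop :=
  ∀ (A : Type) [Finite A] (E : Ops A) (u : Tm (opAr E) (Fin 3)) (C P : Set A),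
    IsCl E → IdCl E → Two u u (clA E) (clA E) → ClSub E C → ClSub E P → C ⊆ P →
    (∃ t ∈ E 3, Maj3 t C P) →
    ∃ v ∈ E 3, Maj3 v C P ∧
      ∀ x y : A, v ![y, x, x] = v ![x, y, x] ∧ v ![x, y, x] = v ![x, x, y]

/-- BW-LOOP: compatible Latin square plus weak near-unanimity gives an abelian group. -/
def S_loop : Prop :=
  ∀ (Ω : Type) (ar : Ω → ℕ) (Q : Type) [Finite Q] (q : Alg ar Q) (u : Tm ar (Fin 3))
    (L : Q → Q → Q) (z0 : Q),
    Nice u q →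
    (∀ ω x y, L (q ω x) (q ω y) = q ω (fun i => L (x i) (y i))) →
    (∀ x, Function.Bijective (L x)) → (∀ y, Function.Bijective (fun x => L x y)) →
    ∃ (G : AddCommGroup Q) (γ : Q → Q), (G.toZero.zero = z0) ∧
      (∀ ω (x y : Fin (ar ω) → Q), q ω (fun i => G.toAdd.add (x i) (y i)) =
        G.toAdd.add (q ω x) (q ω y)) ∧
      Function.Bijective γ ∧ (∀ x y, γ (G.toAdd.add x y) = G.toAdd.add (γ x) (γ y)) ∧
      ∀ x y z, u.ev q ![x, y, z] = G.toAdd.add (G.toAdd.add (γ x) (γ y)) (γ z)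

/-- BW-TAU: the second projection as a dictator term. -/
def S_tau : Prop :=
  ∀ (Ω : Type) (ar : Ω → ℕ) (Q : Type) [Finite Q] (q : Alg ar Q) (u : Tm ar (Fin 3))
    [AddCommGroup Q] (γ : Q → Q),
    Idem q → Function.Bijective γ → (∀ x y, γ (x + y) = γ x + γ y) →
    (∀ x y z, u.ev q ![x, y, z] = γ x + γ y + γ z) →
    ∃ τ : Tm ar (Fin 2), (∀ x y : Q, τ.ev q ![x, y] = y) ∧
      ∀ (A : Type) (a : Alg ar A) (C P : Set A), C ⊆ P → Sub a C → Sub a P →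
        (∀ c ∈ C, ∀ y ∈ P, u.ev a ![c, c, y] ∈ C) →
        ∀ x ∈ C, ∀ y ∈ P, τ.ev a ![x, y] ∈ C

/-- BW-MIN: a minimal idempotent image. -/
def S_minimg : Prop :=
  ∀ (K Q : Type) [Finite K] (φ : K → Q) (M : Set (K → K)),
    (fun x => x) ∈ M → (∀ e ∈ M, ∀ f ∈ M, (fun x => e (f x)) ∈ M) → (∀ e ∈ M, ∀ x, φ (e x) = φ x) →
    ∃ e ∈ M, (∀ x, e (e x) = e x) ∧
      ∀ f ∈ M, ∀ x y, e x = x → e y = y → e (f x) = e (f y) → x = y

/-- BW-NLC: core of the proof that the subclone has no Latin squares. -/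
def S_nlc : Prop :=
  ∀ (A : Type) [Finite A] (E : Ops A) (C P : Set A) (v : (Fin 3 → A) → A) (w : (Fin 4 → A) → A),
    IsCl E → IdCl E → v ∈ E 3 → w ∈ E 4 → LinkedWnu v w →
    ClSub E C → ClSub E P → C ⊆ P →
    ∀ (P0 : Set A) (hP0 : Sub (clA (GC E C P)) P0) (Q : Type) [Finite Q] [AddCommGroup Q]
      (q : Alg (opAr (GC E C P)) Q) (h : P0 → Q) (T : (Fin 2 → A) → A) (hT : T ∈ GC E C P 2),
      Hom (subA (clA (GC E C P)) P0 hP0) q h → Function.Surjective h →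
      (∀ ω x y, q ω (fun i => x i + y i) = q ω x + q ω y) →
      (∀ x ∈ C, ∀ y ∈ P, T ![x, y] ∈ C) →
      (∀ x y : P0, ∀ z : P0, (z : A) = T ![(x : A), (y : A)] → h z = h y) →
      ∀ s : Q, s = 0

/-- BW-NLG: the subclone preserving the clause relation has no Latin squares. -/
def S_nlg : Prop :=
  ∀ (A : Type) [Finite A] (E : Ops A) (C P : Set A) (u : (Fin 3 → A) → A),
    IsCl E → IdCl E → IsBW E → ClSub E C → ClSub E P → C ⊆ P →
    u ∈ GC E C P 3 → Maj3 u C P →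
    (∀ x y : A, u ![y, x, x] = u ![x, y, x] ∧ u ![x, y, x] = u ![x, x, y]) →
    NLQ (clA (GC E C P))

/-- BW-K1: in a minimal bounded width clone ternary absorption is visible by a binary relation. -/
def S_k1 : Prop :=
  ∀ (A : Type) [Finite A] (E : Ops A) (C P : Set A),
    MinBW E → ClSub E C → ClSub E P → C ⊆ P → (∃ t ∈ E 3, Maj3 t C P) → Inv2 E (RC C P)

/-- BW-P6: the converse. -/
def S_p6 : Prop :=
  ∀ (A : Type) (E : Ops A) (C P : Set A),
    IsCl E → IsBW E → ClSub E C → ClSub E P → C ⊆ P → Inv2 E (RC C P) → ∃ t ∈ E 3, Maj3 t C P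

/-- BW-MAIN: minimal bounded width clones are determined by their binary invariants. -/
def S_main : Prop :=
  ∀ (A : Type) [Finite A] (E F : Ops A), MinBW E → MinBW F → (∀ R, Inv2 E R ↔ Inv2 F R) → E = F

end Pool.Agent.W434.BW
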