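import Pool.Agent.W434.BW.AsmGT
import Pool.Agent.W392.BW.Clo
import Pool.Agent.W557.BW.Nlb
import Pool.Agent.W308.BW.SP
import Pool.Agent.W933.BW.NC
import Pool.Agent.W356.BW.N34
import Pool.Agent.W356.BW.N3
import Pool.Agent.W585.BW.Loop
import Pool.Agent.W654.BW.Tau
import Pool.Agent.W103.BW.Min
import Pool.Agent.W435.BW.Nlc
import Pool.Agent.W591.BW.Nlg
import Pool.Agent.W479.BW.K1
import Pool.Agent.W672.BW.P6

/-! Project BW: assembly of part C. Minimal bounded width clones are determined by their binary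
invariants. -/

set_option autoImplicit false
set_option linter.all false

namespace Pool.Agent.W434.BW

open Pool.Agent.W356.BW

theorem bn34 (hc : S_clo) (hn : Pool.Agent.W933.BW.S_nc') : S_n34 := by
  intro A _ E1 E2 u1 u2 h1 h2 hI1 hI2 hinv hT
  rcases isEmpty_or_nonempty A with hA | hA
  · refine ⟨fun x => x 0, h1.1 3 0, h2.1 3 0, fun x => x 0, h1.1 4 0, h2.1 4 0, ?_, ?_, ?_, ?_, ?_⟩
    · intro a
      exact (hA.false a).elim
    · intro a
      exact (hA.false a).elim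
    · intro a
      exact (hA.false a).elim
    · intro a
      exact (hA.false a).elim
    · intro a
      exact (hA.false a).elim
  obtain ⟨N, hN⟩ : ∃ N, N = 3 * Nat.card (A → A → A) + 1 := ⟨_, rfl⟩
  haveI : Nonempty (A → A → A) := ⟨fun a _ => a⟩
  haveI : Finite (A → A) := Pi.finite
  haveI : Finite (A → A → A) := Pi.finite
  have hcard : 0 < Nat.card (A → A → A) := Nat.card_pos
  have h4N : 4 ≤ N := by omega
  haveI : Finite (D34 E1 E2 N).B := inferInstanceAs (Finite (BB N))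
  haveI : Nonempty (D34 E1 E2 N).B :=
    ⟨(Sum.inr ⟨Fin.castLE h4N, fun a b h => h⟩ : BB N)⟩
  obtain ⟨y, g, hg, hm⟩ := hn (OpSym E1) (OpSym E2) (opAr E1) (opAr E2) A u1 u2 (clA E1) (clA E2)
    (D34 E1 E2 N) hT (D34_ok hc h1 h2 hinv N)
  obtain ⟨e, Y, hY⟩ := pigeon (β := A → A → A) 3 N (by omega) y
  have hs3 : StrictMono (fun i : Fin 3 => e (Fin.castSucc i)) := fun a b h =>
    e.strictMono (by simpa using h)
  have hgw := hg (Sum.inr ⟨fun i => e i, e.strictMono⟩ : BB N)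
  have hmw := hm (Sum.inr ⟨fun i => e i, e.strictMono⟩ : BB N)
  have hgv := hg (Sum.inl ⟨fun i => e (Fin.castSucc i), hs3⟩ : BB N)
  have hmv := hm (Sum.inl ⟨fun i => e (Fin.castSucc i), hs3⟩ : BB N)
  obtain ⟨w, hw⟩ : ∃ w : (Fin 4 → A) → A, w = g (Sum.inr ⟨fun i => e i, e.strictMono⟩ : BB N) :=
    ⟨_, rfl⟩
  obtain ⟨v, hv⟩ : ∃ v : (Fin 3 → A) → A,
      v = g (Sum.inl ⟨fun i => e (Fin.castSucc i), hs3⟩ : BB N) := ⟨_, rfl⟩
  rw [← hw] at hgw hmw
  rw [← hv] at hgv hmv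
  have hmw' : ∀ p : Fin 4, minor w p = Y := fun p => (hmw p).trans (hY p)
  have hmv' : ∀ p : Fin 3, minor v p = Y := fun p => (hmv p).trans (hY (Fin.castSucc p))
  have hgv1 : v ∈ E1 3 := hgv.1
  have hgv2 : v ∈ E2 3 := hgv.2
  have hgw1 : w ∈ E1 4 := hgw.1
  have hgw2 : w ∈ E2 4 := hgw.2
  refine ⟨v, hgv1, hgv2, w, hgw1, hgw2, ?_, ?_, ?_, ?_, ?_⟩
  · intro a
    have h := hI1 3 v hgv1 a
    have e1 : (![a, a, a] : Fin 3 → A) = fun _ => a := by
      funext i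
      fin_cases i <;> rfl
    rw [e1]
    exact h
  · intro a
    have h := hI1 4 w hgw1 a
    have e1 : (![a, a, a, a] : Fin 4 → A) = fun _ => a := by
      funext i
      fin_cases i <;> rfl
    rw [e1]
    exact h
  · exact wnu_of_minor v Y hmv'
  · intro x z
    obtain ⟨a0, a1, a2, a3⟩ := v4 w Y hmw' x z
    rw [a0, a1, a2, a3]
    exact ⟨rfl, rfl, rfl⟩
  · intro x z
    obtain ⟨a0, -, -, -⟩ := v4 w Y hmw' x z
    rw [a0, v3 v Y hmv' x z]


theorem bn3 (hc : S_clo) (hn : Pool.Agent.W933.BW.S_nc') : S_n3 := by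
  intro A _ E u C P hE hI hT hC hP hCP ht
  rcases isEmpty_or_nonempty A with hA | hA
  · refine ⟨fun x => x 0, hE.1 3 0, ?_, ?_⟩
    · intro a
      exact (hA.false a).elim
    · intro a
      exact (hA.false a).elim
  obtain ⟨N, hN⟩ : ∃ N, N = 2 * Nat.card (A → A → A) + 1 := ⟨_, rfl⟩
  haveI : Nonempty (A → A → A) := ⟨fun a _ => a⟩
  haveI : Finite (A → A) := Pi.finite
  haveI : Finite (A → A → A) := Pi.finite
  have hcard : 0 < Nat.card (A → A → A) := Nat.card_pos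
  have h3N : 3 ≤ N := by omega
  haveI : Finite (D3 E C P N).B := inferInstanceAs (Finite {p : Fin 3 → Fin N // StrictMono p})
  haveI : Nonempty (D3 E C P N).B :=
    ⟨⟨Fin.castLE h3N, fun a b h => h⟩⟩
  obtain ⟨y, g, hg, hm⟩ := hn (OpSym E) (OpSym E) (opAr E) (opAr E) A u u (clA E) (clA E)
    (D3 E C P N) hT (D3_ok hE hC ht N)
  obtain ⟨e, Y, hY⟩ := pigeon (β := A → A → A) 2 N (by omega) y
  have hgb := (hg (⟨fun i => e i, e.strictMono⟩ : {p : Fin 3 → Fin N // StrictMono p})).1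
  have hmb := hm (⟨fun i => e i, e.strictMono⟩ : {p : Fin 3 → Fin N // StrictMono p})
  obtain ⟨v, hv⟩ : ∃ v : (Fin 3 → A) → A,
      v = g (⟨fun i => e i, e.strictMono⟩ : {p : Fin 3 → Fin N // StrictMono p}) := ⟨_, rfl⟩
  rw [← hv] at hgb hmb
  refine ⟨v, hgb.1, hgb.2, wnu_of_minor v Y (fun p => ?_)⟩
  exact (hmb p).trans (hY p)


theorem aNC : Pool.Agent.W933.BW.S_nc' := Pool.Agent.W933.BW.nc aGT Pool.Agent.W308.BWSP.sp

theorem aClo : S_clo := Pool.Agent.W392.BW.Clo.clo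

theorem aN34 : S_n34 := bn34 aClo aNC

theorem aN3 : S_n3 := bn3 aClo aNC

theorem aNlg : S_nlg := Pool.Agent.W591.BW.nlg aClo Pool.Agent.W585.BW.loop Pool.Agent.W654.BW.tau
  (Pool.Agent.W435.BW.nlc Pool.Agent.W103.BW.minimg)

theorem aK1 : S_k1 := Pool.Agent.W479.BW.k1 aClo Pool.Agent.W557.BWNlb.nlb aN3 aN34 aNlg

/-- minimal bounded width clones are determined by their binary invariants -/
theorem aMain : S_main := Pool.Agent.W672.BW.main aClo Pool.Agent.W557.BWNlb.nlb aN34 aK1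
  Pool.Agent.W672.BW.p6

end Pool.Agent.W434.BW
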