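import Pool.Agent.W193.BW.TR
import Pool.Agent.W585.BW.Cen
import Pool.Agent.W885.BW.Z1
import Pool.Agent.W85.BW.Z2
import Pool.Agent.W337.BW.Z3
import Pool.Agent.W701.BW.Z
import Pool.Agent.W922.BW.Abs
import Pool.Agent.W554.BW.Pi
import Pool.Agent.W696.BW.Fun
import Pool.Agent.W11.BW.Tern
import Pool.Agent.W369.BW.L
import Pool.Agent.W369.BW.Lt
import Pool.Agent.W557.BW.Link
import Pool.Agent.W977.BW.Mpc
import Pool.Agent.W883.BW.MP
import Pool.Agent.W721.BW.PR
import Pool.Agent.W135.BW.Walk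
import Pool.Agent.W174.BW.Mpr
import Pool.Agent.W67.BW.Long
import Pool.Agent.W18.BW.Afm
import Pool.Agent.W721.BW.AFA
import Pool.Agent.W369.BW.Afb
import Pool.Agent.W140.BW.Afc
import Pool.Agent.W82.BW.AFD
import Pool.Agent.W828.BW.SysOk
import Pool.Agent.W959.BW.RedV
import Pool.Agent.W52.BW.RK
import Pool.Agent.W351.BW.RA
import Pool.Agent.W15.BW.GT

/-! Project BW: assembly of parts A and B. Consistent mixed instances have solutions. -/

set_option autoImplicit false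

namespace Pool.Agent.W434.BW

theorem aZ : S_Z := Pool.Agent.W701.BW.zz Pool.Agent.W193.BW.tr Pool.Agent.W585.BW.cen
  Pool.Agent.W885.BW.z1 Pool.Agent.W85.BW.z2 Pool.Agent.W337.BW.z3

theorem aAbs : S_abs := Pool.Agent.W922.BW.abs aZ Pool.Agent.W554.BW.prodAF

theorem aFun : S_fun := Pool.Agent.W696.BW.func aAbs

theorem aL : S_L := Pool.Agent.W369.BW.ll Pool.Agent.W554.BW.prodAF aFun
  (Pool.Agent.W11.BWT.tern aFun)

theorem aMp : S_mp := Pool.Agent.W883.BW.mp aFun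
  (Pool.Agent.W977.BW.mpcore aAbs Pool.Agent.W554.BW.prodAF aL Pool.Agent.W557.BW.link)

theorem aM : S_afmain := Pool.Agent.W18.BW.afmain (Pool.Agent.W369.BW.lt aL) Pool.Agent.W721.BWPR.pr

theorem aRedA : S_redA := Pool.Agent.W351.BW.RA.redA Pool.Agent.W828.BW.sysok
  Pool.Agent.W554.BW.prodAF (Pool.Agent.W721.BWAFA.afa aM) (Pool.Agent.W369.BW.afb aM)
  (Pool.Agent.W140.BW.afc aM Pool.Agent.W554.BW.prodAF aMp)
  (Pool.Agent.W82.BW.afd aM (Pool.Agent.W67.BW.long Pool.Agent.W721.BWPR.pr) aMp)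

theorem aRedV : S_redV := Pool.Agent.W959.BW.redV Pool.Agent.W828.BW.sysok
  Pool.Agent.W174.BW.mproc (Pool.Agent.W135.BW.walk Pool.Agent.W721.BWPR.pr)

theorem aRedK : S_redK := Pool.Agent.W52.BW.redK Pool.Agent.W828.BW.sysok
  (Pool.Agent.W135.BW.walk Pool.Agent.W721.BWPR.pr)

/-- consistent mixed instances have solutions -/
theorem aGT : S_GT := Pool.Agent.W15.BW.gt Pool.Agent.W554.BW.prodAF aRedV aRedK aRedA

end Pool.Agent.W434.BW
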