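import Mathlib

/-!
# Project BW (S03133, MP_d14a7e_al): definitions

Finite idempotent algebras with arbitrary signature, terms, ternary absorption,
systems of binary steps and path consistency.
-/

set_option autoImplicit false

namespace Pool.Agent.W434.BW

section Alg

variable {Ω : Type}

/-- an algebra on `X`: one operation for every symbol `ω`, of arity `ar ω` -/
def Alg (ar : Ω → ℕ) (X : Type) : Type := ∀ ω : Ω, (Fin (ar ω) → X) → X

/-- terms with variables from `V` -/
inductive Tm (ar : Ω → ℕ) (V : Type) : Type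
  | var : V → Tm ar V
  | app : (ω : Ω) → (Fin (ar ω) → Tm ar V) → Tm ar V

variable {ar : Ω → ℕ}

/-- evaluation of a term -/
def Tm.ev {X V : Type} (a : Alg ar X) (x : V → X) : Tm ar V → X
  | .var v => x v
  | .app ω t => a ω (fun i => (t i).ev a x)

/-- all operations are idempotent -/
def Idem {X : Type} (a : Alg ar X) : Prop := ∀ ω x, a ω (fun _ => x) = x

/-- idempotent, and the ternary term `u` is a weak near-unanimity term -/
def Nice {X : Type} (u : Tm ar (Fin 3)) (a : Alg ar X) : Prop :=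
  Idem a ∧ ∀ x y : X, u.ev a ![y, x, x] = u.ev a ![x, y, x] ∧ u.ev a ![x, y, x] = u.ev a ![x, x, y]

/-- subuniverse -/
def Sub {X : Type} (a : Alg ar X) (S : Set X) : Prop := ∀ ω x, (∀ i, x i ∈ S) → a ω x ∈ S

/-- product of two algebras -/
def prodA {X Y : Type} (a : Alg ar X) (b : Alg ar Y) : Alg ar (X × Y) :=
  fun ω z => (a ω (fun i => (z i).1), b ω (fun i => (z i).2))

/-- power of an algebra -/
def piA {X : Type} (a : Alg ar X) (ι : Type) : Alg ar (ι → X) :=
  fun ω z j => a ω (fun i => z i j)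

/-- the algebra on a subuniverse -/
def subA {X : Type} (a : Alg ar X) (S : Set X) (h : Sub a S) : Alg ar S :=
  fun ω z => ⟨a ω (fun i => (z i).1), h ω _ (fun i => (z i).2)⟩

/-- homomorphism -/
def Hom {X Y : Type} (a : Alg ar X) (b : Alg ar Y) (f : X → Y) : Prop :=
  ∀ ω x, f (a ω x) = b ω (fun i => f (x i))

/-- compatible binary relation (subuniverse of the product) -/
def Rel {X Y : Type} (a : Alg ar X) (b : Alg ar Y) (R : X → Y → Prop) : Prop :=
  ∀ ω x y, (∀ i, R (x i) (y i)) → R (a ω x) (b ω y)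

/-- generated subuniverse, by terms -/
def Sg {X : Type} (a : Alg ar X) (G : Set X) : Set X :=
  Set.range (fun t : Tm ar G => t.ev a (fun g : G => (g : X)))

/-- `C` is ternary absorbing through the term `t` -/
def Abs3 {X : Type} (a : Alg ar X) (t : Tm ar (Fin 3)) (C : Set X) : Prop :=
  ∀ c ∈ C, ∀ d ∈ C, ∀ x : X,
    t.ev a ![c, d, x] ∈ C ∧ t.ev a ![c, x, d] ∈ C ∧ t.ev a ![x, c, d] ∈ C

/-- `C` is absorbing through the term `T` (all coordinates but one in `C`) -/
def AbsT {X ι : Type} (a : Alg ar X) (T : Tm ar ι) (C : Set X) : Prop :=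
  ∀ (i : ι) (x : ι → X), (∀ j, j ≠ i → x j ∈ C) → T.ev a x ∈ C

/-- no proper nonempty ternary absorbing subuniverse -/
def AF {X : Type} (a : Alg ar X) : Prop :=
  ∀ C : Set X, Sub a C → C.Nonempty → (∃ t : Tm ar (Fin 3), Abs3 a t C) → C = Set.univ

/-- no proper nonempty binary absorbing subuniverse -/
def BAF {X : Type} (a : Alg ar X) : Prop :=
  ∀ C : Set X, Sub a C → C.Nonempty →
    (∃ s : Tm ar (Fin 2), ∀ c ∈ C, ∀ x : X, s.ev a ![c, x] ∈ C ∧ s.ev a ![x, c] ∈ C) → C = Set.univ

/-- subdirect -/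
def SD {X Y : Type} (R : X → Y → Prop) : Prop := (∀ x, ∃ y, R x y) ∧ (∀ y, ∃ x, R x y)

/-- linked (connected as a bipartite graph, seen from the left) -/
def Linked {X Y : Type} (R : X → Y → Prop) : Prop :=
  ∀ x x', Relation.ReflTransGen (fun a b => ∃ y, R a y ∧ R b y) x x'

/-- simple: only trivial congruences -/
def Simple {X : Type} (a : Alg ar X) : Prop :=
  ∀ θ : X → X → Prop, Equivalence θ → Rel a a θ → (∀ x y, θ x y → x = y) ∨ (∀ x y, θ x y)

/-- the only compatible Latin squares live on one point sets -/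
def NoLatin {X : Type} (a : Alg ar X) : Prop :=
  ∀ q : X → X → X,
    (∀ ω x y, q (a ω x) (a ω y) = a ω (fun i => q (x i) (y i))) →
    (∀ x, Function.Bijective (q x)) → (∀ y, Function.Bijective (fun x => q x y)) →
    ∀ x y : X, x = y

/-- `C`-essential relation of arity `κ` -/
def Ess {X : Type} (a : Alg ar X) (C : Set X) (κ : Type) (S : Set (κ → X)) : Prop :=
  Sub (piA a κ) S ∧ (∀ s ∈ S, ¬ ∀ i, s i ∈ C) ∧ (∀ i : κ, ∃ s ∈ S, ∀ j, j ≠ i → s j ∈ C)

end Alg

section Sys

/-- A system of steps: variables `V`, steps `St` with source, target, inverse step, identity steps,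
a binary relation `E s` on `A` for every step, and a domain `P x` for every variable. -/
structure Sys (V St A : Type) where
  src : St → V
  tgt : St → V
  rev : St → St
  idst : V → St
  E : St → A → A → Prop
  P : V → Set A

variable {V St A : Type}

/-- the axioms: arc consistency, inverse steps, identity steps -/
structure Sys.Ok (S : Sys V St A) : Prop where
  ne : ∀ x, (S.P x).Nonempty
  dom : ∀ s a b, S.E s a b → a ∈ S.P (S.src s) ∧ b ∈ S.P (S.tgt s)
  ext : ∀ s a, a ∈ S.P (S.src s) → ∃ b, S.E s a b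
  src_rev : ∀ s, S.src (S.rev s) = S.tgt s
  tgt_rev : ∀ s, S.tgt (S.rev s) = S.src s
  rev_E : ∀ s a b, S.E (S.rev s) b a ↔ S.E s a b
  src_id : ∀ x, S.src (S.idst x) = x
  tgt_id : ∀ x, S.tgt (S.idst x) = x
  id_E : ∀ x a b, S.E (S.idst x) a b ↔ (a = b ∧ a ∈ S.P x)

/-- `l` is a path from `x` to `y` -/
def Sys.IsPath (S : Sys V St A) : List St → V → V → Prop
  | [], x, y => x = y
  | s :: l, x, y => S.src s = x ∧ S.IsPath l (S.tgt s) y

/-- the relation of a list of steps -/
def Sys.Rl (S : Sys V St A) : List St → A → A → Prop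
  | [], a, b => a = b
  | s :: l, a, b => ∃ c, S.E s a c ∧ S.Rl l c b

/-- `j` copies of a list -/
def rep {St : Type} (j : ℕ) (l : List St) : List St := (List.replicate j l).flatten

/-- the consistency condition -/
def Sys.Qc (S : Sys V St A) : Prop :=
  ∀ s π ρ, S.IsPath π (S.src s) (S.tgt s) → S.IsPath ρ (S.tgt s) (S.src s) →
    ∃ N, ∀ j, N ≤ j → ∀ a b, S.E s a b → S.Rl (π ++ rep j (ρ ++ π)) a b

/-- image of a set under a step -/
def Sys.img (S : Sys V St A) (s : St) (C : Set A) : Set A := {b | ∃ a ∈ C, S.E s a b}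

end Sys

end Pool.Agent.W434.BW
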