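import Pool.Agent.W434.BW.Basic

/-! Project BW, part A: algebra. Exact statements of the subtasks. -/

set_option autoImplicit false

namespace Pool.Agent.W434.BW

/-- BW-TR: transitive terms. -/
def S_tr : Prop :=
  ∀ (Ω : Type) (ar : Ω → ℕ) (u : Tm ar (Fin 3)) (X : Type) [Finite X] (a : Alg ar X),
    Nice u a → BAF a →
    ∃ (ι : Type) (_ : Finite ι) (T : Tm ar ι),
      ∀ (i : ι) (x e : X), ∃ y : ι → X, y i = x ∧ T.ev a y = e

/-- BW-CEN: centers absorb through transitive terms. -/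
def S_cen : Prop :=
  ∀ (Ω : Type) (ar : Ω → ℕ) (X Y : Type) (a : Alg ar X) (b : Alg ar Y) (R : X → Y → Prop)
    (ι : Type) (T : Tm ar ι),
    Rel a b R → (∀ x, ∃ y, R x y) →
    (∀ (i : ι) (x e : Y), ∃ y : ι → Y, y i = x ∧ T.ev b y = e) →
    AbsT a T {x | ∀ y, R x y}

/-- BW-Z1. -/
def S_z1 : Prop :=
  ∀ (Ω : Type) (ar : Ω → ℕ) (X Y : Type) (a : Alg ar X) (b : Alg ar Y) (R : X → Y → Prop),
    Idem a → Rel a b R → (∀ x, ∃ y, R x y) → BAF b →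
    ∀ x, ¬ (∀ y, R x y) →
      (x, x) ∉ Sg (prodA a a) {p : X × X | (p.1 = x ∧ ∀ y, R p.2 y) ∨ ((∀ y, R p.1 y) ∧ p.2 = x)}

/-- BW-Z2. -/
def S_z2 : Prop :=
  ∀ (Ω : Type) (ar : Ω → ℕ) (X : Type) [Finite X] (a : Alg ar X) (C : Set X)
    (ι : Type) [Finite ι] (T : Tm ar ι),
    Idem a → Sub a C → AbsT a T C →
    (∀ x, x ∉ C → (x, x) ∉ Sg (prodA a a) {p : X × X | (p.1 = x ∧ p.2 ∈ C) ∨ (p.1 ∈ C ∧ p.2 = x)}) →
    ∀ (κ : Type) [Finite κ] (S : Set (κ → X)), 3 ≤ Nat.card κ → ¬ Ess a C κ S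

/-- BW-Z3. -/
def S_z3 : Prop :=
  ∀ (Ω : Type) (ar : Ω → ℕ) (X : Type) [Finite X] (a : Alg ar X) (C : Set X),
    Sub a C → (∀ S : Set (Fin 3 → X), ¬ Ess a C (Fin 3) S) → ∃ t : Tm ar (Fin 3), Abs3 a t C

/-- BW-Z: centers are ternary absorbing. -/
def S_Z : Prop :=
  ∀ (Ω : Type) (ar : Ω → ℕ) (u : Tm ar (Fin 3)) (X Y : Type) [Finite X] [Finite Y]
    (a : Alg ar X) (b : Alg ar Y) (R : X → Y → Prop),
    Nice u a → Nice u b → Rel a b R → (∀ x, ∃ y, R x y) → BAF b →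
    Sub a {x | ∀ y, R x y} ∧ ∃ t : Tm ar (Fin 3), Abs3 a t {x | ∀ y, R x y}

/-- BW-ABS: the absorption theorem. -/
def S_abs : Prop :=
  ∀ (Ω : Type) (ar : Ω → ℕ) (u : Tm ar (Fin 3)) (X Y : Type) [Finite X] [Finite Y]
    (a : Alg ar X) (b : Alg ar Y) (R : X → Y → Prop),
    Nice u a → Nice u b → AF a → AF b → Rel a b R → SD R → Linked R → ∀ x y, R x y

/-- BW-PI: products and images of absorption free algebras. -/
def S_prodAF : Prop :=
  (∀ (Ω : Type) (ar : Ω → ℕ) (X Y : Type) (a : Alg ar X) (b : Alg ar Y),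
    Idem a → Idem b → AF a → AF b → AF (prodA a b)) ∧
  (∀ (Ω : Type) (ar : Ω → ℕ) (X Y : Type) (a : Alg ar X) (b : Alg ar Y) (f : X → Y),
    Hom a b f → Function.Surjective f → AF a → AF b) ∧
  (∀ (Ω : Type) (ar : Ω → ℕ) (X : Type) (a : Alg ar X), AF a → BAF a)

/-- BW-FUN: a subdirect relation to a simple algebra is full or a function. -/
def S_fun : Prop :=
  ∀ (Ω : Type) (ar : Ω → ℕ) (u : Tm ar (Fin 3)) (X Y : Type) [Finite X] [Finite Y]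
    (a : Alg ar X) (b : Alg ar Y) (R : X → Y → Prop),
    Nice u a → Nice u b → AF a → AF b → Simple b → Rel a b R → SD R →
    (∀ x y, R x y) ∨ ∃ f : X → Y, ∀ x y, R x y ↔ y = f x

/-- BW-TERN. -/
def S_tern : Prop :=
  ∀ (Ω : Type) (ar : Ω → ℕ) (u : Tm ar (Fin 3)) (P S Q : Type) [Finite P] [Finite S] [Finite Q]
    [Nonempty P] [Nonempty S]
    (p : Alg ar P) (s : Alg ar S) (q : Alg ar Q) (φ : P → S → Q),
    Nice u p → Nice u s → Nice u q → AF p → AF s → AF q → Simple s → Simple q → NoLatin q →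
    (∀ ω x y, φ (p ω x) (s ω y) = q ω (fun i => φ (x i) (y i))) →
    (∀ x, Function.Surjective (φ x)) → (∀ y, Function.Surjective (fun x => φ x y)) →
    ∀ z z' : Q, z = z'

/-- BW-L: independence of simple quotients. -/
def S_L : Prop :=
  ∀ (Ω : Type) (ar : Ω → ℕ) (u : Tm ar (Fin 3)) (X P Q : Type) [Finite X] [Finite P] [Finite Q]
    (x : Alg ar X) (p : Alg ar P) (q : Alg ar Q) (e : X → P) (n : ℕ) (f : Fin n → X → Q),
    Nice u x → Nice u p → Nice u q → AF p → AF q → Simple q → NoLatin q →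
    Hom x p e → Function.Surjective e →
    (∀ i, Hom x q (f i)) → (∀ i, Function.Surjective (f i)) →
    (∀ i j, i ≠ j → ∀ τ : Q → Q, ∃ ξ, f j ξ ≠ τ (f i ξ)) →
    (∀ i, ∀ h : P → Q, ∃ ξ, f i ξ ≠ h (e ξ)) →
    ∀ (y : P) (z : Fin n → Q), ∃ ξ, e ξ = y ∧ ∀ i, f i ξ = z i

/-- BW-LT: the version with a set of quotient maps and one target. -/
def S_Lt : Prop :=
  ∀ (Ω : Type) (ar : Ω → ℕ) (u : Tm ar (Fin 3)) (X P Q : Type) [Finite X] [Finite P] [Finite Q]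
    (x : Alg ar X) (p : Alg ar P) (q : Alg ar Q) (e : X → P) (F : Set (X → Q)) (y : P) (B : Q),
    Nice u x → Nice u p → Nice u q → AF p → AF q → Simple q → NoLatin q →
    Hom x p e → Function.Surjective e →
    (∀ f ∈ F, Hom x q f) → (∀ f ∈ F, Function.Surjective f) →
    (∀ f ∈ F, ∀ g ∈ F, ∀ τ : Q → Q, (∀ ξ, g ξ = τ (f ξ)) → τ B = B) →
    (∀ f ∈ F, ∀ h : P → Q, (∀ ξ, f ξ = h (e ξ)) → h y = B) →
    ∃ ξ, e ξ = y ∧ ∀ f ∈ F, f ξ = B

/-- BW-LINK: absorption preserves linkedness. -/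
def S_link : Prop :=
  ∀ (Ω : Type) (ar : Ω → ℕ) (X Y : Type) (a : Alg ar X) (b : Alg ar Y) (R : X → Y → Prop)
    (t : Tm ar (Fin 3)) (C : Set X) (D : Set Y),
    Idem a → Rel a b R → Abs3 a t C → Abs3 b t D →
    (∀ c ∈ C, ∃ d ∈ D, R c d) → Linked R →
    ∀ c ∈ C, ∀ c' ∈ C,
      Relation.ReflTransGen (fun x x' => x ∈ C ∧ x' ∈ C ∧ ∃ y ∈ D, R x y ∧ R x' y) c c'

/-- BW-MPC: core of the meet prime property. -/
def S_mpcore : Prop :=
  ∀ (Ω : Type) (ar : Ω → ℕ) (u : Tm ar (Fin 3)) (X Y Q : Type) [Finite X] [Finite Y] [Finite Q]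
    [Nonempty X]
    (a : Alg ar X) (b : Alg ar Y) (q : Alg ar Q) (R : X → Y → Prop) (h : X → Y → Q),
    Nice u a → Nice u b → Nice u q → AF q → Simple q → NoLatin q →
    Rel a b R → SD R → Linked R →
    (∀ ω x y, (∀ i, R (x i) (y i)) → h (a ω x) (b ω y) = q ω (fun i => h (x i) (y i))) →
    (∀ x z, ∃ y, R x y ∧ h x y = z) → (∀ y z, ∃ x, R x y ∧ h x y = z) →
    ∀ z z' : Q, z = z'

/-- BW-MP: a simple quotient of a subdirect product factors through one side. -/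
def S_mp : Prop :=
  ∀ (Ω : Type) (ar : Ω → ℕ) (u : Tm ar (Fin 3)) (X Y Q : Type) [Finite X] [Finite Y] [Finite Q]
    (a : Alg ar X) (b : Alg ar Y) (q : Alg ar Q) (R : X → Y → Prop) (h : X → Y → Q),
    Nice u a → Nice u b → Nice u q → AF a → AF b → AF q → Simple q → NoLatin q →
    Rel a b R → SD R →
    (∀ ω x y, (∀ i, R (x i) (y i)) → h (a ω x) (b ω y) = q ω (fun i => h (x i) (y i))) →
    (∀ z, ∃ x y, R x y ∧ h x y = z) →
    (∃ g : X → Q, ∀ x y, R x y → h x y = g x) ∨ (∃ g : Y → Q, ∀ x y, R x y → h x y = g y)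

end Pool.Agent.W434.BW
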