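import Pool.Agent.W434.BW.StmA

/-! Project BW, part B: paths, consistency, reductions. Definitions and exact statements. -/

set_option autoImplicit false

namespace Pool.Agent.W434.BW

section Paths

/-- BW-PR: large powers of a closed path form one equivalence relation containing all powers. -/
def S_pr : Prop :=
  ∀ (V St A : Type) [Finite A] (S : Sys V St A), S.Ok → S.Qc →
    ∀ (x : V) (c : List St), S.IsPath c x x →
      ∃ N : ℕ, ∀ n, N ≤ n →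
        (∀ a ∈ S.P x, S.Rl (rep n c) a a) ∧
        (∀ a ∈ S.P x, ∀ b, S.Rl (rep n c) a b → S.Rl (rep n c) b a) ∧
        (∀ a ∈ S.P x, ∀ b d, S.Rl (rep n c) a b → S.Rl (rep n c) b d → S.Rl (rep n c) a d) ∧
        (∀ m, ∀ a ∈ S.P x, ∀ b, S.Rl (rep m c) a b → S.Rl (rep n c) a b)

/-- BW-WALK: consistency passes to absorbing subsystems. -/
def S_walk : Prop :=
  ∀ (V St A : Type) [Finite A] (S : Sys V St A) (E' : St → A → A → Prop) (D : V → Set A)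
    (t : A → A → A → A),
    S.Ok → S.Qc → ({ S with E := E', P := D } : Sys V St A).Ok →
    (∀ a, t a a a = a) → (∀ s a b, E' s a b → S.E s a b) →
    (∀ s a1 b1 a2 b2 a3 b3, E' s a1 b1 → E' s a2 b2 → S.E s a3 b3 →
      E' s (t a1 a2 a3) (t b1 b2 b3) ∧ E' s (t a1 a3 a2) (t b1 b3 b2) ∧
      E' s (t a3 a1 a2) (t b3 b1 b2)) →
    ({ S with E := E', P := D } : Sys V St A).Qc

/-- BW-MPR: a strongly connected sink component of the propagation of good sets. -/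
def S_mproc : Prop :=
  ∀ (V St A : Type) [Finite V] [Finite A] (S : Sys V St A) (Good : V → Set A → Prop),
    S.Ok → S.Qc →
    (∀ x C, Good x C → C ⊆ S.P x ∧ C.Nonempty ∧ C ≠ S.P x) →
    (∀ s C, Good (S.src s) C → S.img s C = S.P (S.tgt s) ∨ Good (S.tgt s) (S.img s C)) →
    (∃ x C, Good x C) →
    ∃ (W : Set V) (C : V → Set A), W.Nonempty ∧ (∀ x ∈ W, Good x (C x)) ∧
      (∀ s, S.src s ∈ W → S.tgt s ∈ W →
        S.img s (C (S.src s)) = C (S.tgt s) ∨ S.img s (C (S.src s)) = S.P (S.tgt s)) ∧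
      (∀ s, S.src s ∈ W → S.tgt s ∉ W → S.img s (C (S.src s)) = S.P (S.tgt s)) ∧
      (∀ s, S.src s ∈ W → S.tgt s ∈ W → ∀ a b, S.E s a b →
        (a ∈ C (S.src s) ↔ b ∈ C (S.tgt s)))

/-- BW-LONG: on long closed walks one of two complementary path relations contains the other. -/
def S_long : Prop :=
  ∀ (V St A : Type) [Finite A] (S : Sys V St A), S.Ok → S.Qc →
    ∀ (s : St) (π ρ : List St), S.IsPath π (S.src s) (S.tgt s) → S.IsPath ρ (S.tgt s) (S.src s) →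
      ∃ N : ℕ, ∀ j, N ≤ j → ∀ (w1 μ w3 : List St) (z z' : V),
        π ++ rep j (ρ ++ π) = w1 ++ (μ ++ w3) →
        S.IsPath w1 (S.src s) z → S.IsPath μ z z' → S.IsPath w3 z' (S.tgt s) →
        (∀ c ∈ S.P z, ∀ c', S.Rl μ c c' → ∃ a b, S.Rl w1 a c ∧ S.E s a b ∧ S.Rl w3 c' b) ∨
        (∀ c ∈ S.P z, ∀ c' ∈ S.P z', (∃ a b, S.Rl w1 a c ∧ S.E s a b ∧ S.Rl w3 c' b) → S.Rl μ c c')

end Paths

section Ctx

variable {Ω : Type} {ar : Ω → ℕ}

/-- data of the absorption free step -/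
structure Ctx (ar : Ω → ℕ) (V St A Q : Type) where
  S : Sys V St A
  a : Alg ar A
  q : Alg ar Q
  x0 : V
  h0 : A → Q
  B : Q

variable {V St A Q : Type}

structure Ctx.Ok (u : Tm ar (Fin 3)) (C : Ctx ar V St A Q) : Prop where
  ok : C.S.Ok
  qc : C.S.Qc
  nice : Nice u C.a
  niceq : Nice u C.q
  subP : ∀ x, Sub C.a (C.S.P x)
  relE : ∀ s, Rel C.a C.a (C.S.E s)
  afP : ∀ x, AF (subA C.a (C.S.P x) (subP x))
  hom : ∀ ω (x : Fin (ar ω) → A), (∀ i, x i ∈ C.S.P C.x0) →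
    C.h0 (C.a ω x) = C.q ω (fun i => C.h0 (x i))
  sur : ∀ z : Q, ∃ c ∈ C.S.P C.x0, C.h0 c = z
  simple : Simple C.q
  afq : AF C.q
  nl : NoLatin C.q
  two : ∃ z z' : Q, z ≠ z'

/-- a path from `x0` whose end determines the class of its start -/
def Ctx.Rigid (C : Ctx ar V St A Q) (π : List St) (x : V) : Prop :=
  C.S.IsPath π C.x0 x ∧
  ∀ a ∈ C.S.P C.x0, ∀ a' ∈ C.S.P C.x0, ∀ c, C.S.Rl π a c → C.S.Rl π a' c → C.h0 a = C.h0 a'

/-- the new domains: all rigid paths point to the class `B` -/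
def Ctx.P' (C : Ctx ar V St A Q) (x : V) : Set A :=
  {c | c ∈ C.S.P x ∧ ∀ π, C.Rigid π x → ∀ a ∈ C.S.P C.x0, C.S.Rl π a c → C.h0 a = C.B}

/-- BW-AFM: main lemma of the absorption free step. -/
def S_afmain : Prop :=
  ∀ (Ω : Type) (ar : Ω → ℕ) (u : Tm ar (Fin 3)) (V St A Q : Type) [Finite A] [Finite Q]
    (C : Ctx ar V St A Q), C.Ok u →
    ∀ (X Ph : Type) [Finite X] [Finite Ph] (b : Alg ar X) (p : Alg ar Ph) (e : X → Ph) (eh : Ph)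
      (T : Type) (z : T → X → A) (node : T → V),
      Nice u b → Nice u p → AF p → Hom b p e → Function.Surjective e →
      (∀ t, Hom b C.a (z t)) → (∀ t ξ, z t ξ ∈ C.S.P (node t)) →
      (∀ t, ∀ c ∈ C.S.P (node t), ∃ ξ, z t ξ = c) →
      (∀ t t', ∃ μ, C.S.IsPath μ (node t) (node t') ∧
        ∀ c ∈ C.S.P (node t), ∀ c', C.S.Rl μ c c' → ∃ ξ, z t ξ = c ∧ z t' ξ = c') →
      (∀ t π, C.Rigid π (node t) → ∀ h : Ph → Q,
        (∀ ξ, ∀ a ∈ C.S.P C.x0, C.S.Rl π a (z t ξ) → C.h0 a = h (e ξ)) → h eh = C.B) →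
      ∃ ξ, e ξ = eh ∧ ∀ t, z t ξ ∈ C.P' (node t)

/-- BW-AFA: the new domains are nonempty, and proper at `x0`, and subuniverses. -/
def S_afa : Prop :=
  ∀ (Ω : Type) (ar : Ω → ℕ) (u : Tm ar (Fin 3)) (V St A Q : Type) [Finite A] [Finite Q]
    (C : Ctx ar V St A Q), C.Ok u →
    (∀ x, (C.P' x).Nonempty) ∧ (∀ x, C.P' x ⊆ C.S.P x) ∧ C.P' C.x0 ≠ C.S.P C.x0 ∧
    (∀ x, Sub C.a (C.P' x))

/-- BW-AFB: subdirectness of the restricted constraints. -/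
def S_afb : Prop :=
  ∀ (Ω : Type) (ar : Ω → ℕ) (u : Tm ar (Fin 3)) (V St A Q : Type) [Finite A] [Finite Q]
    (C : Ctx ar V St A Q), C.Ok u →
    ∀ (ι : Type) [Finite ι] (σ : ι → V) (R : Set (ι → A)) (stp : ι → ι → St),
      Sub (piA C.a ι) R →
      (∀ i j, C.S.src (stp i j) = σ i ∧ C.S.tgt (stp i j) = σ j ∧
        ∀ x y, C.S.E (stp i j) x y ↔ ∃ r ∈ R, r i = x ∧ r j = y) →
      ∀ i, ∀ x ∈ C.P' (σ i), ∃ r ∈ R, r i = x ∧ ∀ j, r j ∈ C.P' (σ j)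

/-- BW-AFC: restricted constraints have the expected binary projections. -/
def S_afc : Prop :=
  ∀ (Ω : Type) (ar : Ω → ℕ) (u : Tm ar (Fin 3)) (V St A Q : Type) [Finite A] [Finite Q]
    (C : Ctx ar V St A Q), C.Ok u →
    ∀ (ι : Type) [Finite ι] (σ : ι → V) (R : Set (ι → A)) (stp : ι → ι → St)
      (hR : Sub (piA C.a ι) R),
      (∀ i j, C.S.src (stp i j) = σ i ∧ C.S.tgt (stp i j) = σ j ∧
        ∀ x y, C.S.E (stp i j) x y ↔ ∃ r ∈ R, r i = x ∧ r j = y) →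
      AF (subA (piA C.a ι) R hR) →
      ∀ i j, ∀ r ∈ R, r i ∈ C.P' (σ i) → r j ∈ C.P' (σ j) →
        ∃ r' ∈ R, r' i = r i ∧ r' j = r j ∧ ∀ l, r' l ∈ C.P' (σ l)

/-- BW-AFD: consistency of the restricted system, for a step with absorption free relation. -/
def S_afd : Prop :=
  ∀ (Ω : Type) (ar : Ω → ℕ) (u : Tm ar (Fin 3)) (V St A Q : Type) [Finite A] [Finite Q]
    (C : Ctx ar V St A Q), C.Ok u →
    ∀ (s : St) (hE : Sub (prodA C.a C.a) {p : A × A | C.S.E s p.1 p.2}),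
      AF (subA (prodA C.a C.a) {p : A × A | C.S.E s p.1 p.2} hE) →
      ∀ π ρ, C.S.IsPath π (C.S.src s) (C.S.tgt s) → C.S.IsPath ρ (C.S.tgt s) (C.S.src s) →
        ∃ N, ∀ j, N ≤ j → ∀ x y, C.S.E s x y → x ∈ C.P' (C.S.src s) → y ∈ C.P' (C.S.tgt s) →
          ({ C.S with
              E := fun s x y => C.S.E s x y ∧ x ∈ C.P' (C.S.src s) ∧ y ∈ C.P' (C.S.tgt s)
              P := C.P' } : Sys V St A).Rl (π ++ rep j (ρ ++ π)) x y

end Ctx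

section Mixed

/-- a mixed instance: variables `V`, constraints `K` with coordinate types `ι k`; constraints with
`fl k` are relations of the first algebra, the others of the second algebra -/
structure MI (V K A : Type) (ι : K → Type) where
  σ : ∀ k, ι k → V
  fl : K → Prop
  R : ∀ k, Set (ι k → A)
  P : V → Set A

/-- the system of steps of a mixed instance -/
def MI.sys {V K A : Type} {ι : K → Type} (M : MI V K A ι) :
    Sys V ((Σ k, ι k × ι k) ⊕ V) A where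
  src := fun s => match s with
    | .inl p => M.σ p.1 p.2.1
    | .inr x => x
  tgt := fun s => match s with
    | .inl p => M.σ p.1 p.2.2
    | .inr x => x
  rev := fun s => match s with
    | .inl p => .inl ⟨p.1, p.2.2, p.2.1⟩
    | .inr x => .inr x
  idst := fun x => .inr x
  E := fun s a b => match s with
    | .inl p => ∃ r ∈ M.R p.1, r p.2.1 = a ∧ r p.2.2 = b
    | .inr x => a = b ∧ a ∈ M.P x
  P := M.P

variable {Ω1 Ω2 : Type} {ar1 : Ω1 → ℕ} {ar2 : Ω2 → ℕ}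

structure MI.Ok {V K A : Type} {ι : K → Type} (M : MI V K A ι) (a1 : Alg ar1 A) (a2 : Alg ar2 A) :
    Prop where
  ne : ∀ x, (M.P x).Nonempty
  neR : ∀ k, (M.R k).Nonempty
  subP : ∀ x, Sub a1 (M.P x)
  sub1 : ∀ k, M.fl k → Sub (piA a1 (ι k)) (M.R k)
  sub2 : ∀ k, ¬ M.fl k → Sub (piA a2 (ι k)) (M.R k)
  dom : ∀ k, ∀ r ∈ M.R k, ∀ i, r i ∈ M.P (M.σ k i)
  ext : ∀ k i, ∀ a ∈ M.P (M.σ k i), ∃ r ∈ M.R k, r i = a

/-- `C` absorbs `P` through the ternary term `t` -/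
def RAbs {Ω A : Type} {ar : Ω → ℕ} (a : Alg ar A) (t : Tm ar (Fin 3)) (C P : Set A) : Prop :=
  ∀ c ∈ C, ∀ d ∈ C, ∀ x ∈ P,
    t.ev a ![c, d, x] ∈ C ∧ t.ev a ![c, x, d] ∈ C ∧ t.ev a ![x, c, d] ∈ C

/-- no simple or other quotient of a subuniverse of `a` carries a compatible Latin square -/
def NLQ {Ω A : Type} {ar : Ω → ℕ} (a : Alg ar A) : Prop :=
  ∀ (P : Set A) (hP : Sub a P) (Q : Type) [Finite Q] (q : Alg ar Q) (h : P → Q),
    Hom (subA a P hP) q h → Function.Surjective h → NoLatin q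

/-- the standing hypotheses on two algebras with the same binary invariants -/
structure Two {A : Type} (u1 : Tm ar1 (Fin 3)) (u2 : Tm ar2 (Fin 3)) (a1 : Alg ar1 A)
    (a2 : Alg ar2 A) : Prop where
  n1 : Nice u1 a1
  n2 : Nice u2 a2
  inv : ∀ E : A → A → Prop, Rel a1 a1 E ↔ Rel a2 a2 E
  h3 : ∀ P C : Set A, Sub a1 P → Sub a1 C → C ⊆ P → C.Nonempty →
    ((∃ t, RAbs a1 t C P) ↔ (∃ t, RAbs a2 t C P))
  nl1 : NLQ a1
  nl2 : NLQ a2

/-- a strictly smaller consistent instance exists -/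
def MI.Red {V K A : Type} {ι : K → Type} (M : MI V K A ι) (a1 : Alg ar1 A) (a2 : Alg ar2 A) :
    Prop :=
  ∃ (R' : ∀ k, Set (ι k → A)) (P' : V → Set A),
    ({ M with R := R', P := P' } : MI V K A ι).Ok a1 a2 ∧
    ({ M with R := R', P := P' } : MI V K A ι).sys.Qc ∧
    (∀ k, R' k ⊆ M.R k) ∧ (∀ x, P' x ⊆ M.P x) ∧
    ((∃ x, P' x ≠ M.P x) ∨ (∃ k, R' k ≠ M.R k))

/-- BW-SYS: the system of a consistent instance satisfies the axioms. -/
def S_sysok : Prop :=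
  ∀ (Ω1 Ω2 : Type) (ar1 : Ω1 → ℕ) (ar2 : Ω2 → ℕ) (V K A : Type) (ι : K → Type)
    (M : MI V K A ι) (u1 : Tm ar1 (Fin 3)) (u2 : Tm ar2 (Fin 3)) (a1 : Alg ar1 A) (a2 : Alg ar2 A),
    Two u1 u2 a1 a2 → M.Ok a1 a2 →
    M.sys.Ok ∧ (∀ s, Rel a1 a1 (M.sys.E s)) ∧ (∀ s, Rel a2 a2 (M.sys.E s)) ∧
    (∀ x, Sub a2 (M.P x))

/-- BW-RV: reduction, absorbing set in a domain. -/
def S_redV : Prop :=
  ∀ (Ω1 Ω2 : Type) (ar1 : Ω1 → ℕ) (ar2 : Ω2 → ℕ) (V K A : Type) [Finite V] [Finite K] [Finite A]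
    (ι : K → Type) [∀ k, Finite (ι k)]
    (M : MI V K A ι) (u1 : Tm ar1 (Fin 3)) (u2 : Tm ar2 (Fin 3)) (a1 : Alg ar1 A) (a2 : Alg ar2 A),
    Two u1 u2 a1 a2 → M.Ok a1 a2 → M.sys.Qc →
    ∀ (x : V) (C : Set A) (t1 : Tm ar1 (Fin 3)) (t2 : Tm ar2 (Fin 3)),
      Sub a1 C → C ⊆ M.P x → C.Nonempty → C ≠ M.P x → RAbs a1 t1 C (M.P x) → RAbs a2 t2 C (M.P x) →
      M.Red a1 a2

/-- BW-RK: reduction, absorbing set in one constraint with full projections. -/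
def S_redK : Prop :=
  ∀ (Ω1 Ω2 : Type) (ar1 : Ω1 → ℕ) (ar2 : Ω2 → ℕ) (V K A : Type) [Finite V] [Finite K] [Finite A]
    (ι : K → Type) [∀ k, Finite (ι k)]
    (M : MI V K A ι) (u1 : Tm ar1 (Fin 3)) (u2 : Tm ar2 (Fin 3)) (a1 : Alg ar1 A) (a2 : Alg ar2 A),
    Two u1 u2 a1 a2 → M.Ok a1 a2 → M.sys.Qc →
    ∀ (k : K) (C : Set (ι k → A)), C ⊆ M.R k → C.Nonempty → C ≠ M.R k →
      (∀ i, ∀ a ∈ M.P (M.σ k i), ∃ r ∈ C, r i = a) →
      ((M.fl k ∧ Sub (piA a1 (ι k)) C ∧ ∃ t, RAbs (piA a1 (ι k)) t C (M.R k)) ∨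
       (¬ M.fl k ∧ Sub (piA a2 (ι k)) C ∧ ∃ t, RAbs (piA a2 (ι k)) t C (M.R k))) →
      M.Red a1 a2

/-- BW-RA: reduction, no absorption anywhere. -/
def S_redA : Prop :=
  ∀ (Ω1 Ω2 : Type) (ar1 : Ω1 → ℕ) (ar2 : Ω2 → ℕ) (V K A : Type) [Finite V] [Finite K] [Finite A]
    (ι : K → Type) [∀ k, Finite (ι k)]
    (M : MI V K A ι) (u1 : Tm ar1 (Fin 3)) (u2 : Tm ar2 (Fin 3)) (a1 : Alg ar1 A) (a2 : Alg ar2 A),
    Two u1 u2 a1 a2 → M.Ok a1 a2 → M.sys.Qc →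
    (∀ x (h : Sub a1 (M.P x)), AF (subA a1 (M.P x) h)) →
    (∀ x (h : Sub a2 (M.P x)), AF (subA a2 (M.P x) h)) →
    (∀ k, M.fl k → ∀ h, AF (subA (piA a1 (ι k)) (M.R k) h)) →
    (∀ k, ¬ M.fl k → ∀ h, AF (subA (piA a2 (ι k)) (M.R k) h)) →
    (∃ x, ∃ c ∈ M.P x, ∃ d ∈ M.P x, c ≠ d) →
    M.Red a1 a2

/-- BW-GT: consistent mixed instances have solutions. -/
def S_GT : Prop :=
  ∀ (Ω1 Ω2 : Type) (ar1 : Ω1 → ℕ) (ar2 : Ω2 → ℕ) (V K A : Type) [Finite V] [Finite K] [Finite A]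
    (ι : K → Type) [∀ k, Finite (ι k)]
    (M : MI V K A ι) (u1 : Tm ar1 (Fin 3)) (u2 : Tm ar2 (Fin 3)) (a1 : Alg ar1 A) (a2 : Alg ar2 A),
    Two u1 u2 a1 a2 → M.Ok a1 a2 → M.sys.Qc →
    ∃ f : V → A, ∀ k, (fun i => f (M.σ k i)) ∈ M.R k

end Mixed

end Pool.Agent.W434.BW
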